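import Pool.Agent.Lib.MP_2095a9_ag.T2.W9

set_option autoImplicit false

open MvPolynomial

namespace Pool.Agent.Results.MP_2095a9_ag.DivisorsThreeTwo

/-- Let `A` be a symmetric 3 × 3 matrix of polynomials in `ℂ[x,y]` of total degree at most three
with nonzero determinant (that is, a divisor `zᵀ A z = 0` of bidegree (3,2) in `ℙ² × ℙ²` whose
generic conic over the first factor is smooth). Let `a, b ∈ ℂ(x,y)` be such that the conic
`a u² + b v² = 1` is projectively equivalent over `ℂ(x,y)` to the conic with matrix `A`: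
`Pᵀ A P = diag(c a, c b, -c)` for an invertible matrix `P`. Then the conic bundle threefold
`a u² + b v² = 1` is unirational: its function field embeds over `ℂ` into `ℂ(t₁,t₂,t₃)`. -/
theorem result (A : Matrix (Fin 3) (Fin 3) (MvPolynomial (Fin 2) ℂ)) (hs : A.IsSymm)
    (hdeg : ∀ i j, (A i j).totalDegree ≤ 3) (hdet : A.det ≠ 0)
    (a b c : FractionRing (MvPolynomial (Fin 2) ℂ))
    (P : Matrix (Fin 3) (Fin 3) (FractionRing (MvPolynomial (Fin 2) ℂ))) (hP : P.det ≠ 0)
    (h : P.transpose *
        A.map (algebraMap (MvPolynomial (Fin 2) ℂ) (FractionRing (MvPolynomial (Fin 2) ℂ))) * P =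
      Matrix.diagonal ![c * a, c * b, -c]) :
    Nonempty
        (FractionRing
            (MvPolynomial (Fin 2) (FractionRing (MvPolynomial (Fin 2) ℂ)) ⧸
              Ideal.span
                {(C a * X 0 ^ 2 + C b * X 1 ^ 2 - 1 :
                  MvPolynomial (Fin 2) (FractionRing (MvPolynomial (Fin 2) ℂ)))})
          →ₐ[ℂ] FractionRing (MvPolynomial (Fin 3) ℂ)) := by
  have hdetK : (A.map (algebraMap (MvPolynomial (Fin 2) ℂ)
      (FractionRing (MvPolynomial (Fin 2) ℂ)))).det ≠ 0 := by
    intro h0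
    apply hdet
    apply IsFractionRing.injective (MvPolynomial (Fin 2) ℂ)
      (FractionRing (MvPolynomial (Fin 2) ℂ))
    rw [map_zero, RingHom.map_det]
    exact h0
  have h1 := congrArg Matrix.det h
  rw [Matrix.det_mul, Matrix.det_mul, Matrix.det_transpose, Matrix.det_diagonal,
    Fin.prod_univ_three] at h1
  have h2 : (c * a) * (c * b) * (-c) ≠ 0 := by
    have e : (c * a) * (c * b) * (-c) = ![c * a, c * b, -c] 0 * ![c * a, c * b, -c] 1 *
      ![c * a, c * b, -c] 2 := rfl
    rw [e, ← h1]
    exact mul_ne_zero (mul_ne_zero hP hdetK) hP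
  have hca := left_ne_zero_of_mul (left_ne_zero_of_mul h2)
  have hcb := right_ne_zero_of_mul (left_ne_zero_of_mul h2)
  exact Pool.Agent.Lib.MP_2095a9_ag.T2.theoremT2 A hs hdet hdeg a b
    (right_ne_zero_of_mul hca) (right_ne_zero_of_mul hcb) P hP c (left_ne_zero_of_mul hca) h

end Pool.Agent.Results.MP_2095a9_ag.DivisorsThreeTwo
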