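import Pool.Agent.Lib.MP_2095a9_ag.Flag

set_option autoImplicit false

open MvPolynomial

namespace Pool.Agent.Results.MP_2095a9_ag.FlagDoubleCover

/-- Write `y = X 0`, `x = X 1`. Let `g₀, …, g₅ ∈ ℂ[x, y]` have total degree at most four and put
`G = g₀ c² + 2 g₁ c t + 2 g₂ c + g₃ t² + 2 g₄ t + g₅` with `c = y - t x`; then
`G = A t² + 2 B t - D` with `A, B, D` as below. If `A ≠ 0` and `B² + A D ≠ 0`, then the conic
bundle threefold `w² = G`, i.e. `a u² + b v² = 1` with `a = A`, `b = B² + A D`, is unirational: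
its function field embeds over `ℂ` into `ℂ(t₁, t₂, t₃)`. (These are the double covers of the
variety of flags in the plane branched along a divisor of bidegree `(4, 2)`.) -/
theorem result (g0 g1 g2 g3 g4 g5 A B D : MvPolynomial (Fin 2) ℂ)
    (h0 : g0.totalDegree ≤ 4) (h1 : g1.totalDegree ≤ 4) (h2 : g2.totalDegree ≤ 4)
    (h3 : g3.totalDegree ≤ 4) (h4 : g4.totalDegree ≤ 4) (h5 : g5.totalDegree ≤ 4)
    (hA : A = g0 * X 1 ^ 2 - 2 * g1 * X 1 + g3)
    (hB : B = - g0 * X 1 * X 0 + g1 * X 0 - g2 * X 1 + g4)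
    (hD : D = - (g0 * X 0 ^ 2 + 2 * g2 * X 0 + g5))
    (hA0 : A ≠ 0) (hδ : B ^ 2 + A * D ≠ 0)
    (a b : FractionRing (MvPolynomial (Fin 2) ℂ))
    (ha : a = algebraMap (MvPolynomial (Fin 2) ℂ) (FractionRing (MvPolynomial (Fin 2) ℂ)) A)
    (hb : b = algebraMap (MvPolynomial (Fin 2) ℂ) (FractionRing (MvPolynomial (Fin 2) ℂ))
      (B ^ 2 + A * D)) :
    Nonempty
        (FractionRing
            (MvPolynomial (Fin 2) (FractionRing (MvPolynomial (Fin 2) ℂ)) ⧸
              Ideal.span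
                {(C a * X 0 ^ 2 + C b * X 1 ^ 2 - 1 :
                  MvPolynomial (Fin 2) (FractionRing (MvPolynomial (Fin 2) ℂ)))})
          →ₐ[ℂ] FractionRing (MvPolynomial (Fin 3) ℂ)) :=
  Pool.Agent.Lib.MP_2095a9_ag.main_flag g0 g1 g2 g3 g4 g5 A B D h0 h1 h2 h3 h4 h5 hA hB hD hA0 hδ
    a b ha hb

end Pool.Agent.Results.MP_2095a9_ag.FlagDoubleCover
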