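import Pool.Agent.Lib.MP_2095a9_ag.SlotsBase

set_option autoImplicit false

open MvPolynomial

namespace Pool.Agent.Results.MP_2095a9_ag.QuarticSlots

/-- `y` is `X 0`; `X 1` is `x` in `ℂ(x, y)` and `s` in the polynomials `A, B, D` of `ℂ[s, y]`. Let
`p / q` be a nonconstant rational function of `s` and let `A, B, D` have degree at most four in
`y`. If the conic `a u² + b v² = 1` has a point over every extension field `M` of `ℂ(x, y)` with an
element `s` such that `x = p(s) / q(s)`, in which the conic `A u² + (B² + A D) v² = 1` has a point,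
then the conic bundle threefold `a u² + b v² = 1` is unirational. The homomorphism `ε` is the
evaluation of polynomials in `s, y` at `s, y ∈ M`. -/
theorem result
    (ι : MvPolynomial (Fin 2) ℂ →+* FractionRing (MvPolynomial (Fin 2) ℂ))
    (hι : ι = algebraMap (MvPolynomial (Fin 2) ℂ) (FractionRing (MvPolynomial (Fin 2) ℂ)))
    (p q : Polynomial ℂ) (hq : q ≠ 0) (hpq : ∀ c : ℂ, p ≠ Polynomial.C c * q)
    (A B D : MvPolynomial (Fin 2) ℂ)
    (hA : A.degreeOf 0 ≤ 4) (hB : B.degreeOf 0 ≤ 4) (hD : D.degreeOf 0 ≤ 4)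
    (hA0 : A ≠ 0) (hδ0 : B ^ 2 + A * D ≠ 0)
    (a b : FractionRing (MvPolynomial (Fin 2) ℂ)) (ha0 : a ≠ 0) (hb0 : b ≠ 0)
    (h : ∀ (M : Type) [Field M] (φ : FractionRing (MvPolynomial (Fin 2) ℂ) →+* M)
      (ε : MvPolynomial (Fin 2) ℂ →+* M),
      (∀ c : ℂ, ε (C c) = φ (ι (C c))) → ε (X 0) = φ (ι (X 0)) →
      ε (Polynomial.aeval (X 1) q) ≠ 0 →
      φ (ι (X 1)) * ε (Polynomial.aeval (X 1) q) = ε (Polynomial.aeval (X 1) p) →
      (∃ u v : M, ε A * u ^ 2 + ε (B ^ 2 + A * D) * v ^ 2 = 1) →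
      ∃ u v : M, φ a * u ^ 2 + φ b * v ^ 2 = 1) :
    Nonempty
        (FractionRing
            (MvPolynomial (Fin 2) (FractionRing (MvPolynomial (Fin 2) ℂ)) ⧸
              Ideal.span
                {(C a * X 0 ^ 2 + C b * X 1 ^ 2 - 1 :
                  MvPolynomial (Fin 2) (FractionRing (MvPolynomial (Fin 2) ℂ)))})
          →ₐ[ℂ] FractionRing (MvPolynomial (Fin 3) ℂ)) := by
  subst hι
  exact Pool.Agent.Lib.MP_2095a9_ag.main_base_quartic p q hq hpq A B D
    hA hB hD hA0 hδ0 a b ha0 hb0 h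

end Pool.Agent.Results.MP_2095a9_ag.QuarticSlots
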